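import Pool.Agent.helper99.WN.Basic2

/-! # Row CY of project WN: closedness is invariant along a run -/

set_option autoImplicit false

open Classical

namespace Pool.Agent.WN

/-- periodic extension of a closed reading -/
theorem CY_ext {V : Type} {k : ℕ} {R : V → Lt k → V → Prop} {W : ℤ → Lt k} {N n : ℕ} (hW : Wd W N)
    (hn : 1 ≤ n) {s : ℤ} {v : V} (h : ClAt R W N n s v) :
    ∃ Z : ℤ → V, (∀ t, R (Z t) (W t) (Z (t + 1))) ∧ Z s = v ∧ ∀ t, Z (t + (n : ℤ) * N) = Z t := by
  obtain ⟨z, h1, h2, h3⟩ := h
  have hP : 0 < (n : ℤ) * N := by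
    have h4 : 0 < N := hW.pos
    have h5 : 0 < n := hn
    positivity
  set P : ℤ := (n : ℤ) * N with hPdef
  refine ⟨fun t => z (s + (t - s) % P), ?_, ?_, ?_⟩
  · intro t
    have hq0 : 0 ≤ (t - s) % P := Int.emod_nonneg _ hP.ne'
    have hq1 : (t - s) % P < P := Int.emod_lt_of_pos _ hP
    have hr := h1 (s + (t - s) % P) (by linarith) (by linarith)
    have hWt : W (s + (t - s) % P) = W t := by
      apply hW.per_dvd
      have h6 : s + (t - s) % P - t = -((t - s) / P) * P := by
        have := Int.emod_add_mul_ediv (t - s) P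
        linarith
      rw [h6, hPdef]
      exact ⟨-((t - s) / ((n : ℤ) * N)) * n, by ring⟩
    rw [hWt] at hr
    have hnext : z (s + (t - s) % P + 1) = z (s + (t + 1 - s) % P) := by
      by_cases hc : (t - s) % P + 1 < P
      · have h7 : (t + 1 - s) % P = (t - s) % P + 1 := by
          have e : t + 1 - s = (t - s) + 1 := by ring
          rw [e, ← Int.emod_add_emod, Int.emod_eq_of_lt (by linarith) hc]
        rw [h7, add_assoc]
      · have h8 : (t - s) % P + 1 = P := by linarith
        have h7 : (t + 1 - s) % P = 0 := by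
          have e : t + 1 - s = (t - s) + 1 := by ring
          rw [e, ← Int.emod_add_emod, h8, Int.emod_self]
        rw [h7, add_assoc, h8, add_zero, h3, h2]
    rw [hnext] at hr
    exact hr
  · simp only [sub_self, Int.zero_emod, add_zero]
    exact h2
  · intro t
    have e : t + P - s = (t - s) + P := by ring
    simp only [e, Int.add_emod_right]

theorem CY : CY_stmt := by
  intro V k R W N n hW hn hD hS s e z hz t1 ht1 ht1' hcl t ht ht'
  obtain ⟨Z, hZ, hZ1, hZ2⟩ := CY_ext hW hn hcl
  have fwd : ∀ q : ℕ, t1 + q ≤ e → Z (t1 + q) = z (t1 + q) := by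
    intro q
    induction q with
    | zero =>
      intro _
      simpa using hZ1
    | succ q ih =>
      intro hq
      have hq' : t1 + (q : ℤ) + 1 ≤ e := by
        push_cast at hq
        linarith
      have h1 := ih (by linarith)
      have h2 := hz (t1 + q) (by linarith) (by linarith)
      have h3 := hZ (t1 + q)
      rw [h1] at h3
      have h4 := hD _ _ _ _ h3 h2
      push_cast
      rw [← add_assoc]
      exact h4
  have bwd : ∀ q : ℕ, s ≤ t1 - q → Z (t1 - q) = z (t1 - q) := by
    intro q
    induction q with
    | zero =>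
      intro _
      simpa using hZ1
    | succ q ih =>
      intro hq
      have hq' : s ≤ t1 - (q : ℤ) - 1 := by
        push_cast at hq
        linarith
      have h1 := ih (by linarith)
      have h2 := hz (t1 - q - 1) hq' (by linarith)
      have h3 := hZ (t1 - q - 1)
      have e1 : t1 - (q : ℤ) - 1 + 1 = t1 - q := by ring
      rw [e1] at h2 h3
      rw [h1] at h3
      have h4 := hD _ _ _ _ (hS _ _ _ h3) (hS _ _ _ h2)
      push_cast
      rw [← sub_sub]
      exact h4
  have heq : Z t = z t := by
    rcases le_total t1 t with h | h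
    · have h1 := fwd (t - t1).toNat (by omega)
      have e1 : t1 + ((t - t1).toNat : ℤ) = t := by omega
      rwa [e1] at h1
    · have h1 := bwd (t1 - t).toNat (by omega)
      have e1 : t1 - ((t1 - t).toNat : ℤ) = t := by omega
      rwa [e1] at h1
  exact ⟨Z, fun t' _ _ => hZ t', heq, by rw [hZ2, heq]⟩

end Pool.Agent.WN
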